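import Pool.Agent.MWLQ.StmtsB

/-!
# Light ends: `I1` and `It`, all periods (row LEF of squad MWLQ)

Problem MP_23468a_al.
-/

set_option autoImplicit false

namespace Pool.Agent.MWLQ.H76

open Pool.Agent.MWLQ

theorem lef (h1 : AleStmt) (h2 : AioStmt) (h3 : MWGQ.PefStmt) (h4 : MWGQ.FfrStmt)
    (h5 : MWGQ.ItaStmt) : LefStmt := by
  intro n β hm hg he
  have hf : FBs n β := fun r τ ht => h3 n β hm hg r τ ht
  have a := h2 n β hg (fun m τ ht => h1 n β hm hg he hf m τ ht)
  have b := h4 n β hg a hf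
  exact ⟨a, h5 n β hg a b⟩

end Pool.Agent.MWLQ.H76
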